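import Mathlib
import Pool.Agent.X1.ZeckSquares

/-!
# Maximum order complexity of the Zeckendorf digit parity along squares

We disprove the expected order `N^{1/(2d)}` of the maximum order complexity of the Zeckendorf digit
parity along polynomials of degree `d`: for `P = X^2` it is at least a constant times `N^{1/3}`.
-/

namespace Pool.Agent.Results.MP_d0186b_co.SquaresCubeRoot

open Filter Pool.Agent.X1.ZeckTools Pool.Agent.X1.ZeckSquares

/-- The Zeckendorf digit sum `s_Z(n)`. -/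
def digitSum (n : ℕ) : ℕ := (Nat.zeckendorf n).length

/-- The sequence `S_{Z,P} = (s_Z(P(n)) mod 2)`, for `P` with nonnegative values at `n ≥ 0`. -/
def paritySeq (P : Polynomial ℤ) (n : ℕ) : ZMod 2 := (digitSum (P.eval (n : ℤ)).toNat : ZMod 2)

/-- A feedback function of length `M` generates `s_0, …, s_{N-1}`:
`s_{i+M} = f(s_i, …, s_{i+M-1})` for every `0 ≤ i ≤ N-M-1`. -/
def Feeds (s : ℕ → ZMod 2) (N M : ℕ) : Prop :=
  ∃ f : (Fin M → ZMod 2) → ZMod 2, ∀ i : ℕ, i + M + 1 ≤ N → s (i + M) = f (fun j => s (i + j))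

open Classical in
/-- The maximum order complexity `M(s, N)` (for `N ≥ 2`): if `s_0, …, s_{N-2}` are all equal it is
`0` or `N-1` according as `s_{N-1}` is equal to them or not, and otherwise it is the least positive
`M` for which a feedback function of length `M` generates `s_0, …, s_{N-1}`. -/
noncomputable def maxOrderComplexity (s : ℕ → ZMod 2) (N : ℕ) : ℕ :=
  if ∀ i, i < N - 1 → s i = s 0 then (if s (N - 1) = s 0 then 0 else N - 1)
  else sInf {M | 0 < M ∧ Feeds s N M}

/-- The statement asked about in Q1: for every monic integer polynomial `P` of degree `d ≥ 2` with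
`P(ℕ) ⊆ ℕ` there are `c, C > 0` with `c N^{1/(2d)} ≤ M(S_{Z,P}, N) ≤ C N^{1/(2d)}` for all
sufficiently large `N`. -/
def OrderStatement : Prop :=
  ∀ P : Polynomial ℤ, P.Monic → 2 ≤ P.natDegree → (∀ n : ℕ, 0 ≤ P.eval (n : ℤ)) →
    ∃ c C : ℝ, 0 < c ∧ 0 < C ∧ ∀ᶠ N : ℕ in atTop,
      c * (N : ℝ) ^ (1 / (2 * (P.natDegree : ℝ))) ≤ maxOrderComplexity (paritySeq P) N ∧
      (maxOrderComplexity (paritySeq P) N : ℝ) ≤ C * (N : ℝ) ^ (1 / (2 * (P.natDegree : ℝ)))

/-! ### Periods forced by feedback -/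

lemma period_of_window {s : ℕ → ZMod 2} {N M W A p : ℕ} (hM : M ≤ W) (hf : Feeds s N M)
    (hw : ∀ i, i < W → s (A + p + i) = s (A + i)) :
    ∀ i, A + p + i < N → s (A + p + i) = s (A + i) := by
  obtain ⟨f, hf⟩ := hf
  intro i
  induction i using Nat.strong_induction_on with
  | _ i ih =>
    intro hi
    by_cases h : i < W
    · exact hw i h
    push Not at h
    obtain ⟨m, rfl⟩ : ∃ m, i = m + M := ⟨i - M, by omega⟩
    have h1 := hf (A + p + m) (by omega)
    have h2 := hf (A + m) (by omega)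
    rw [show A + p + (m + M) = A + p + m + M by ring, show A + (m + M) = A + m + M by ring,
      h1, h2]
    congr 1
    funext j
    have hj := j.isLt
    have := ih (m + j) (by omega) (by omega)
    rw [show A + p + m + (j : ℕ) = A + p + (m + j) by ring,
      show A + m + (j : ℕ) = A + (m + j) by ring]
    exact this

lemma descent {s : ℕ → ZMod 2} {N A k : ℕ}
    (h1 : ∀ x, A ≤ x → x + luc (k + 1) < N → s (x + luc (k + 1)) = s x)
    (h2 : ∀ x, A ≤ x → x + luc (k + 2) < N → s (x + luc (k + 2)) = s x) :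
    ∀ d i, i + d = k + 1 →
      (∀ x, A ≤ x → x + luc (k + 3) < N + luc (i + 1) → s (x + luc i) = s x) ∧
      (∀ x, A ≤ x → x + luc (k + 3) < N + luc i → s (x + luc (i + 1)) = s x) := by
  have hk := luc_add_two (k + 1)
  rw [show k + 1 + 2 = k + 3 by ring, show k + 1 + 1 = k + 2 by ring] at hk
  intro d
  induction d with
  | zero =>
    intro i hi
    have : i = k + 1 := by omega
    subst this
    rw [show k + 1 + 1 = k + 2 by ring]
    constructor
    · intro x hx hxN
      exact h1 x hx (by omega)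
    · intro x hx hxN
      exact h2 x hx (by omega)
  | succ d ih =>
    intro i hi
    obtain ⟨ia, ib⟩ := ih (i + 1) (by omega)
    have hi2 := luc_add_two i
    rw [show i + 1 + 1 = i + 2 by ring] at *
    constructor
    · intro x hx hxN
      have e1 := ib x hx (by omega)
      have e2 := ia (x + luc i) (by omega) (by omega)
      rw [← e1, ← e2]
      congr 1
      omega
    · intro x hx hxN
      exact ia x hx (by omega)

lemma const_of_descent {s : ℕ → ZMod 2} {N A k : ℕ}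
    (h1 : ∀ x, A ≤ x → x + luc (k + 1) < N → s (x + luc (k + 1)) = s x)
    (h2 : ∀ x, A ≤ x → x + luc (k + 2) < N → s (x + luc (k + 2)) = s x) :
    ∀ i, A + i + luc (k + 3) < N + 3 → s (A + i) = s A := by
  have h := (descent h1 h2 (k + 1) 0 (by omega)).1
  rw [luc_zero, show (0 : ℕ) + 1 = 1 by norm_num, luc_one] at h
  intro i
  induction i with
  | zero => intro _; rfl
  | succ i ih =>
    intro hi
    have e1 := ih (by omega)
    have e2 := h (A + i) (by omega) (by omega)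
    rw [← e1, ← e2]
    rfl

/-- The sequence of parities of Zeckendorf digit sums of squares. -/
def sq (n : ℕ) : ZMod 2 := ((Nat.zeckendorf (n ^ 2)).length : ZMod 2)

lemma paritySeq_sq : paritySeq (Polynomial.X ^ 2) = sq := by
  funext n
  unfold paritySeq sq digitSum
  have : ((Polynomial.X ^ 2 : Polynomial ℤ).eval (n : ℤ)).toNat = n ^ 2 := by
    rw [Polynomial.eval_pow, Polynomial.eval_X]
    exact_mod_cast Int.toNat_natCast (n ^ 2)
  rw [this]

/-- No short feedback function generates the first `N` terms. -/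
lemma not_feeds {j N M : ℕ} (hj : 8 ≤ Nat.fib j) (hM : 4 * (M + 1) ≤ Nat.fib j)
    (hN : 2 * luc (3 * j + 3) ≤ N) : ¬ Feeds sq N M := by
  intro hf
  set k := 3 * j with hk
  have hwin : ∀ k', 3 * j ≤ k' → ∀ i, i < M →
      sq (luc k' + 2 + luc (k' + 1) + i) = sq (luc k' + 2 + i) := by
    intro k' hk' i hi
    have h := length_sq_add_two (j := j) (k := k') (r := 2 + i) (by omega) (by omega) hk'
    unfold sq
    have hl := luc_add_two k'
    rw [show luc k' + 2 + luc (k' + 1) + i = luc (k' + 2) + (2 + i) by rw [hl]; ring,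
      show luc k' + 2 + i = luc k' + (2 + i) by ring, h]
  have p1 := period_of_window le_rfl hf (hwin k le_rfl)
  have p2 := period_of_window le_rfl hf (hwin (k + 1) (by omega))
  rw [show k + 1 + 1 = k + 2 by ring] at p2
  have hmono := luc_mono_succ k
  have h1 : ∀ x, luc (k + 1) + 2 ≤ x → x + luc (k + 1) < N → sq (x + luc (k + 1)) = sq x := by
    intro x hx hxN
    obtain ⟨i, rfl⟩ : ∃ i, x = luc k + 2 + i := ⟨x - (luc k + 2), by omega⟩
    have := p1 i (by omega)
    rw [← this]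
    congr 1
    ring
  have h2 : ∀ x, luc (k + 1) + 2 ≤ x → x + luc (k + 2) < N → sq (x + luc (k + 2)) = sq x := by
    intro x hx hxN
    obtain ⟨i, rfl⟩ : ∃ i, x = luc (k + 1) + 2 + i := ⟨x - (luc (k + 1) + 2), by omega⟩
    have := p2 i (by omega)
    rw [← this]
    congr 1
    ring
  have hc := const_of_descent h1 h2
  have hm1 := luc_mono_succ (k + 1)
  have hm2 := luc_mono_succ (k + 2)
  rw [show k + 1 + 1 = k + 2 by ring] at hm1
  rw [show k + 2 + 1 = k + 3 by ring] at hm2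
  have c1 := hc (luc (k + 2) - luc (k + 1)) (by omega)
  have c2 := hc (luc (k + 3) - luc (k + 1)) (by omega)
  rw [← c1] at c2
  rw [show luc (k + 1) + 2 + (luc (k + 3) - luc (k + 1)) = luc (k + 3) + 2 by omega,
    show luc (k + 1) + 2 + (luc (k + 2) - luc (k + 1)) = luc (k + 2) + 2 by omega] at c2
  exact length_sq_two (j := j) (k := k + 2) hj (by omega) c2

/-- Lower bound for the maximum order complexity in terms of Fibonacci numbers. -/
lemma lower_fib {j N : ℕ} (hj : 8 ≤ Nat.fib j) (hN : 2 * luc (3 * j + 3) ≤ N) :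
    Nat.fib j ≤ 4 * maxOrderComplexity sq N + 3 := by
  by_contra hcon
  push Not at hcon
  have hM : 4 * (maxOrderComplexity sq N + 1) ≤ Nat.fib j := by omega
  have hl3 : 4 ≤ luc (3 * j + 3) := by
    have h1 : luc 2 ≤ luc (3 * j + 3) := luc_mono (by omega)
    have h2 : luc 2 = 4 := by decide
    omega
  have hm2 := luc_mono_succ (3 * j + 2)
  rw [show 3 * j + 2 + 1 = 3 * j + 3 by ring] at hm2
  have hnc : ¬ ∀ i, i < N - 1 → sq i = sq 0 := by
    intro h
    have a1 := h (luc (3 * j + 2) + 2) (by omega)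
    have a2 := h (luc (3 * j + 3) + 2) (by omega)
    exact length_sq_two (j := j) (k := 3 * j + 2) hj (by omega) (a2.trans a1.symm)
  have hne : ({M | 0 < M ∧ Feeds sq N M} : Set ℕ).Nonempty := by
    refine ⟨N, by omega, fun _ => 0, ?_⟩
    intro i hi
    omega
  have hmem := Nat.sInf_mem hne
  have hdef : maxOrderComplexity sq N = sInf {M | 0 < M ∧ Feeds sq N M} := by
    unfold maxOrderComplexity
    rw [if_neg hnc]
  rw [← hdef] at hmem
  exact not_feeds hj hM hN hmem.2

/-! ### From Fibonacci numbers to powers of `N` -/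

lemma phi_pow_le_fib (n : ℕ) : Real.goldenRatio ^ n ≤ Real.goldenRatio ^ 2 * Nat.fib n
    ∨ n = 0 := by
  rcases Nat.eq_zero_or_pos n with h | h
  · exact Or.inr h
  left
  obtain ⟨n, rfl⟩ : ∃ m, n = m + 1 := ⟨n - 1, by omega⟩
  clear h
  have hg := Real.goldenRatio_sq
  have h1 := Real.one_lt_goldenRatio
  induction n using Nat.twoStepInduction with
  | zero =>
    simp only [zero_add, pow_one, Nat.fib_one, Nat.cast_one, mul_one]
    rw [hg]; linarith
  | one =>
    simp [Nat.fib]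
  | more n ih1 ih2 =>
    have e : Real.goldenRatio ^ (n + 2 + 1)
        = Real.goldenRatio ^ (n + 1) + Real.goldenRatio ^ (n + 1 + 1) := by
      rw [show n + 2 + 1 = (n + 1) + 2 by ring, pow_add _ (n + 1) 2, hg]
      rw [pow_succ _ (n + 1)]
      generalize Real.goldenRatio ^ (n + 1) = Y
      generalize Real.goldenRatio = Z
      ring
    rw [e, show n + 2 + 1 = (n + 1) + 2 by ring, Nat.fib_add_two]
    push_cast
    rw [mul_add]
    linarith

/-- The explicit constant. -/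
noncomputable def KK : ℝ := 4 * Real.goldenRatio ^ 13

lemma KK_pos : 0 < KK := by
  unfold KK
  have := Real.goldenRatio_pos
  positivity

lemma luc_le_cube {j : ℕ} (hj : 1 ≤ j) : 2 * (luc (3 * j + 6) : ℝ) ≤ KK * (Nat.fib j : ℝ) ^ 3 := by
  have h1 : (luc (3 * j + 6) : ℝ) ≤ 2 * Nat.fib (3 * j + 8) := by
    have : luc (3 * j + 6) ≤ 2 * Nat.fib (3 * j + 8) := by
      unfold luc
      have := Nat.fib_mono (show 3 * j + 6 ≤ 3 * j + 8 by omega)
      rw [show 3 * j + 6 + 2 = 3 * j + 8 by ring]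
      omega
    exact_mod_cast this
  have h2 : (Nat.fib (3 * j + 7 + 1) : ℝ) ≤ Real.goldenRatio ^ (3 * j + 7) :=
    fib_le_phi_pow (3 * j + 7)
  have h3 := (phi_pow_le_fib j).resolve_right (by omega)
  have hg := Real.goldenRatio_pos
  have h4 : (Real.goldenRatio ^ j) ^ 3 ≤ (Real.goldenRatio ^ 2 * Nat.fib j) ^ 3 := by
    gcongr
  have h5 : Real.goldenRatio ^ (3 * j + 7) = (Real.goldenRatio ^ j) ^ 3 * Real.goldenRatio ^ 7 := by
    rw [← pow_mul, ← pow_add]
    congr 1
    ring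
  have h6 : (Real.goldenRatio ^ 2 * (Nat.fib j : ℝ)) ^ 3 * Real.goldenRatio ^ 7
      = Real.goldenRatio ^ 13 * (Nat.fib j : ℝ) ^ 3 := by
    rw [mul_pow, ← pow_mul]
    rw [show (2 : ℕ) * 3 = 6 by norm_num, show (13 : ℕ) = 6 + 7 by norm_num, pow_add]
    generalize Real.goldenRatio ^ 6 = Y
    generalize Real.goldenRatio ^ 7 = Z
    ring
  have h7 : (Real.goldenRatio ^ j) ^ 3 * Real.goldenRatio ^ 7
      ≤ (Real.goldenRatio ^ 2 * (Nat.fib j : ℝ)) ^ 3 * Real.goldenRatio ^ 7 := by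
    gcongr
  unfold KK
  calc 2 * (luc (3 * j + 6) : ℝ) ≤ 4 * Nat.fib (3 * j + 8) := by linarith
    _ ≤ 4 * Real.goldenRatio ^ (3 * j + 7) := by
      have : (Nat.fib (3 * j + 8) : ℝ) ≤ Real.goldenRatio ^ (3 * j + 7) := h2
      linarith
    _ ≤ 4 * (Real.goldenRatio ^ 13 * (Nat.fib j : ℝ) ^ 3) := by
      rw [h5]
      linarith [h6 ▸ h7]
    _ = 4 * Real.goldenRatio ^ 13 * (Nat.fib j : ℝ) ^ 3 := by
      generalize Real.goldenRatio ^ 13 = Y
      ring

/-- The lower bound `M(S_{Z,X^2}, N) ≥ c N^{1/3}`. -/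
theorem lower_bound : ∃ c : ℝ, 0 < c ∧ ∀ᶠ N : ℕ in atTop,
    c * (N : ℝ) ^ ((1 : ℝ) / 3) ≤ maxOrderComplexity sq N := by
  refine ⟨1 / (8 * KK ^ ((1 : ℝ) / 3)), ?_, ?_⟩
  · have := KK_pos
    positivity
  filter_upwards [eventually_ge_atTop (2 * luc 21)] with N hN
  -- choose the largest admissible j
  have hex : ∃ j, 6 ≤ j ∧ 2 * luc (3 * j + 3) ≤ N ∧ N < 2 * luc (3 * j + 6) := by
    have hex' : ∃ j, N < 2 * luc (3 * j + 6) := by
      refine ⟨N, ?_⟩
      have h1 : Nat.fib (3 * N + 8) ≤ luc (3 * N + 6) := by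
        unfold luc
        rw [show 3 * N + 6 + 2 = 3 * N + 8 by ring]
        omega
      have h2 : 3 * N + 8 ≤ Nat.fib (3 * N + 8) + 1 := Nat.le_fib_add_one _
      omega
    classical
    let j := Nat.find hex'
    have hj1 : N < 2 * luc (3 * j + 6) := Nat.find_spec hex'
    have hj6 : 6 ≤ j := by
      by_contra h
      push Not at h
      have : luc (3 * j + 6) ≤ luc 21 := luc_mono (by omega)
      omega
    refine ⟨j, hj6, ?_, hj1⟩
    have hmin := Nat.find_min hex' (m := j - 1) (by omega)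
    push Not at hmin
    have : 3 * (j - 1) + 6 = 3 * j + 3 := by omega
    rw [this] at hmin
    exact hmin
  obtain ⟨j, hj6, hN1, hN2⟩ := hex
  have hfib : 8 ≤ Nat.fib j := by
    have h1 : Nat.fib 6 ≤ Nat.fib j := Nat.fib_mono hj6
    have h2 : Nat.fib 6 = 8 := by decide
    omega
  have hlow := lower_fib hfib hN1
  have hM1 : Nat.fib j ≤ 8 * maxOrderComplexity sq N := by omega
  have hcube := luc_le_cube (j := j) (by omega)
  have hN3 : (N : ℝ) ≤ KK * (Nat.fib j : ℝ) ^ 3 := by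
    have : (N : ℝ) ≤ 2 * (luc (3 * j + 6) : ℝ) := by exact_mod_cast hN2.le
    linarith
  have hK := KK_pos
  have hroot : (N : ℝ) ^ ((1 : ℝ) / 3) ≤ KK ^ ((1 : ℝ) / 3) * Nat.fib j := by
    calc (N : ℝ) ^ ((1 : ℝ) / 3) ≤ (KK * (Nat.fib j : ℝ) ^ 3) ^ ((1 : ℝ) / 3) :=
          Real.rpow_le_rpow (by positivity) hN3 (by norm_num)
      _ = KK ^ ((1 : ℝ) / 3) * ((Nat.fib j : ℝ) ^ 3) ^ ((1 : ℝ) / 3) :=
          Real.mul_rpow hK.le (by positivity)
      _ = KK ^ ((1 : ℝ) / 3) * Nat.fib j := by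
          rw [← Real.rpow_natCast, ← Real.rpow_mul (by positivity)]
          norm_num
  have hKr : 0 < KK ^ ((1 : ℝ) / 3) := by positivity
  have hM2 : (Nat.fib j : ℝ) ≤ 8 * maxOrderComplexity sq N := by exact_mod_cast hM1
  rw [div_mul_eq_mul_div, one_mul, div_le_iff₀ (by positivity)]
  calc (N : ℝ) ^ ((1 : ℝ) / 3) ≤ KK ^ ((1 : ℝ) / 3) * Nat.fib j := hroot
    _ ≤ KK ^ ((1 : ℝ) / 3) * (8 * maxOrderComplexity sq N) := by gcongr
    _ = maxOrderComplexity sq N * (8 * KK ^ ((1 : ℝ) / 3)) := by ring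

/-- **The expected order of magnitude is wrong.** The statement of Q1 fails; the monic polynomial
`P = X^2` of degree `2` is a counterexample, with `M(S_{Z,P}, N) ≥ c N^{1/3}` for some `c > 0` and
all sufficiently large `N`. -/
theorem result : ¬ OrderStatement ∧
    ∃ c : ℝ, 0 < c ∧ ∀ᶠ N : ℕ in atTop,
      c * (N : ℝ) ^ ((1 : ℝ) / 3) ≤ maxOrderComplexity (paritySeq (Polynomial.X ^ 2)) N := by
  have hlb := lower_bound
  rw [← paritySeq_sq] at hlb
  refine ⟨?_, hlb⟩
  intro h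
  obtain ⟨c, hc, hcN⟩ := hlb
  obtain ⟨_, C, _, hC, hCN⟩ := h (Polynomial.X ^ 2) (Polynomial.monic_X_pow 2)
    (by rw [Polynomial.natDegree_X_pow]) (by intro n; simp)
  rw [Polynomial.natDegree_X_pow] at hCN
  have hlim : Tendsto (fun N : ℕ => c * (N : ℝ) ^ ((1 : ℝ) / 12)) atTop atTop := by
    apply Tendsto.const_mul_atTop hc
    exact (tendsto_rpow_atTop (by norm_num)).comp tendsto_natCast_atTop_atTop
  have hev := hlim.eventually_gt_atTop C
  obtain ⟨N, h1, h2, h3, h4⟩ :=
    ((hcN.and (hCN.and (hev.and (eventually_gt_atTop 0)))).exists)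
  have hNpos : (0 : ℝ) < N := by exact_mod_cast h4
  have h5 := h2.2
  have h6 : (N : ℝ) ^ ((1 : ℝ) / 3) = (N : ℝ) ^ ((1 : ℝ) / 12) * (N : ℝ) ^ ((1 : ℝ) / 4) := by
    rw [← Real.rpow_add hNpos]
    norm_num
  have h7 : (1 / (2 * ((2 : ℕ) : ℝ))) = (1 : ℝ) / 4 := by norm_num
  rw [h7] at h5
  rw [h6] at h1
  have h8 : 0 < (N : ℝ) ^ ((1 : ℝ) / 4) := Real.rpow_pos_of_pos hNpos _
  have h9 : C * (N : ℝ) ^ ((1 : ℝ) / 4) < (c * (N : ℝ) ^ ((1 : ℝ) / 12)) * (N : ℝ) ^ ((1 : ℝ) / 4) :=
    mul_lt_mul_of_pos_right h3 h8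
  have h10 : c * ((N : ℝ) ^ ((1 : ℝ) / 12) * (N : ℝ) ^ ((1 : ℝ) / 4))
      = (c * (N : ℝ) ^ ((1 : ℝ) / 12)) * (N : ℝ) ^ ((1 : ℝ) / 4) := by ring
  rw [h10] at h1
  linarith

end Pool.Agent.Results.MP_d0186b_co.SquaresCubeRoot
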